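import Pool.Agent.Y485.HS.Stm

/-!
A totally disconnected locally compact group has a compact open subgroup (the proof follows
`IsTopologicalGroup.exist_openSubgroup_sub_clopen_nhds_of_one` of Mathlib).
-/

set_option autoImplicit false

open Set Filter Topology Pointwise

namespace Pool.Agent.Y43.HS

variable {G : Type} [Group G] [TopologicalSpace G] [IsTopologicalGroup G]

theorem exist_mul {W : Set G} (hWc : IsCompact W) (hWo : IsOpen W) :
    ∃ T ∈ 𝓝 (1 : G), W * T ⊆ W := by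
  apply hWc.induction_on (p := fun S ↦ ∃ T ∈ 𝓝 (1 : G), S * T ⊆ W)
    ⟨Set.univ, by simp only [univ_mem, empty_mul, empty_subset, and_self]⟩
    (fun _ _ huv ⟨T, hT, mem⟩ ↦ ⟨T, hT, (mul_subset_mul_right huv).trans mem⟩)
    fun U V ⟨T₁, hT₁, mem1⟩ ⟨T₂, hT₂, mem2⟩ ↦ ⟨T₁ ∩ T₂, inter_mem hT₁ hT₂, by
      rw [union_mul]
      exact union_subset (mul_subset_mul_left inter_subset_left |>.trans mem1)
        (mul_subset_mul_left inter_subset_right |>.trans mem2) ⟩
  intro x memW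
  have : (x, 1) ∈ (fun p : G × G ↦ p.1 * p.2) ⁻¹' W := by simp [memW]
  rcases isOpen_prod_iff.mp (continuous_mul.isOpen_preimage W <| hWo) x 1 this with
    ⟨U, V, Uopen, Vopen, xmemU, onememV, prodsub⟩
  have h6 : U * V ⊆ W := mul_subset_iff.mpr (fun _ hx _ hy ↦ prodsub (mk_mem_prod hx hy))
  exact ⟨U ∩ W, ⟨U, Uopen.mem_nhds xmemU, W, fun _ a ↦ a, rfl⟩,
    V, IsOpen.mem_nhds Vopen onememV, fun _ a ↦ h6 ((mul_subset_mul_right inter_subset_left) a)⟩

theorem exists_sub {W : Set G} (hWc : IsCompact W) (hWo : IsOpen W) (h1 : 1 ∈ W) :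
    ∃ H : OpenSubgroup G, (H : Set G) ⊆ W := by
  obtain ⟨S, Smemnhds, mulclose⟩ := exist_mul hWc hWo
  rcases mem_nhds_iff.mp Smemnhds with ⟨U, UsubS, Uopen, onememU⟩
  obtain ⟨V, hV1, hVinv, hVo, hVW⟩ : ∃ V : Set G, (1 : G) ∈ V ∧ V⁻¹ = V ∧ IsOpen V ∧
      W * V ⊆ W := by
    refine ⟨U ∩ U⁻¹, ⟨onememU, by simpa using onememU⟩, ?_, Uopen.inter Uopen.inv, ?_⟩
    · simp [inter_comm]
    · exact fun a ha ↦ mulclose (mul_subset_mul_left UsubS (mul_subset_mul_left inter_subset_left ha))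
  let S : Subgroup G := {
    carrier := ⋃ n, V ^ (n + 1)
    mul_mem' := fun ha hb ↦ by
      rcases mem_iUnion.mp ha with ⟨k, hk⟩
      rcases mem_iUnion.mp hb with ⟨l, hl⟩
      apply mem_iUnion.mpr
      use k + 1 + l
      rw [add_assoc, pow_add]
      exact Set.mul_mem_mul hk hl
    one_mem' := by
      apply mem_iUnion.mpr
      use 0
      simpa using hV1
    inv_mem' := fun ha ↦ by
      rcases mem_iUnion.mp ha with ⟨k, hk⟩
      apply mem_iUnion.mpr
      use k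
      rw [← hVinv]
      simpa only [inv_pow, Set.mem_inv, inv_inv] using hk }
  have : IsOpen (⋃ n, V ^ (n + 1)) := by
    refine isOpen_iUnion (fun n ↦ ?_)
    rw [pow_succ]
    exact hVo.mul_left
  use ⟨S, this⟩
  have mulVpow (n : ℕ) : W * V ^ (n + 1) ⊆ W := by
    induction n with
    | zero => simpa using hVW
    | succ n ih =>
      rw [pow_succ, ← mul_assoc]
      exact (Set.mul_subset_mul_right ih).trans hVW
  have (n : ℕ) : V ^ (n + 1) ⊆ W * V ^ (n + 1) := by
    intro x xin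
    rw [Set.mem_mul]
    use 1, h1, x, xin
    rw [one_mul]
  apply iUnion_subset fun i _ a ↦ mulVpow i (this i a)

theorem vd : Pool.Agent.Y485.HS.S_VD := by
  intro G _ _ _ _ _ _
  obtain ⟨C, hC, hC1⟩ := exists_compact_mem_nhds (1 : G)
  obtain ⟨W, hW, h1, hWC⟩ :=
    (loc_compact_Haus_tot_disc_of_zero_dim (H := G)).mem_nhds_iff.1 hC1
  have hWclopen : IsClopen W := hW
  have hWc : IsCompact W := hC.of_isClosed_subset hWclopen.isClosed hWC
  obtain ⟨K, hK⟩ := exists_sub hWc hWclopen.isOpen h1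
  exact ⟨K.toSubgroup, K.isOpen, hWc.of_isClosed_subset K.isClosed hK⟩

end Pool.Agent.Y43.HS
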